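import Pool.Agent.NPC.Sat
import Pool.Agent.H671R2.PolyAuto

/-!
# Monotone not-all-equal satisfiability
-/

namespace Pool.Agent.NPC.WC648

open Pool.Agent.NPC

/-- the variables -/
abbrev NV : Type := ℕ × ℕ × Bool

/-- Not-all-equal satisfiability of monotone clauses with three (not necessarily distinct)
variables. -/
def NAE (φ : List (NV × NV × NV)) : Prop :=
  ∃ τ : NV → Bool, ∀ t ∈ φ, ¬ (τ t.1 = τ t.2.1 ∧ τ t.2.1 = τ t.2.2)

/-- the variable of a literal -/
def lv (l : Lit ℕ) : NV := (0, l.2, l.1)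

/-- the variable of the negated literal -/
def nlv (l : Lit ℕ) : NV := (0, l.2, !l.1)

/-- the clauses for one clause -/
def cls (c : Lit ℕ × Lit ℕ × Lit ℕ) (i : ℕ) : List (NV × NV × NV) :=
  [(lv c.1, lv c.2.1, (1, i, true)), (lv c.2.2, (1, i, false), (2, 0, false)),
    ((1, i, true), (1, i, true), (1, i, false)), (lv c.1, lv c.1, nlv c.1),
    (lv c.2.1, lv c.2.1, nlv c.2.1), (lv c.2.2, lv c.2.2, nlv c.2.2)]

/-- the reduction from 3SAT -/
def redN (φ : List (Lit ℕ × Lit ℕ × Lit ℕ)) : List (NV × NV × NV) :=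
  φ.zipIdx.flatMap (fun p => cls p.1 p.2)

theorem bool1 : ∀ a b c z z' F : Bool, ¬ (a = b ∧ b = z) → ¬ (c = z' ∧ z' = F) →
    ¬ (z = z ∧ z = z') → a ≠ F ∨ b ≠ F ∨ c ≠ F := by decide

theorem bool2 : ∀ x y b : Bool, ¬ (x = x ∧ x = y) →
    ∀ F : Bool, ((bif b then x else y) ^^ F) = b → x ≠ F := by decide

theorem bool3 : ∀ x y b : Bool, ¬ (x = x ∧ x = y) →
    ∀ F : Bool, x ≠ F → ((bif b then x else y) ^^ F) = b := by decide

theorem redN_correct (φ : List (Lit ℕ × Lit ℕ × Lit ℕ)) : SAT3 φ ↔ NAE (redN φ) := by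
  constructor
  · rintro ⟨τ, hτ⟩
    let z : ℕ → Bool := fun i => match φ[i]? with
      | some c => !((τ c.1.2 == c.1.1) || (τ c.2.1.2 == c.2.1.1))
      | none => false
    refine ⟨fun x => if x.1 = 0 then (τ x.2.1 == x.2.2) else if x.1 = 1 then (z x.2.1 == x.2.2)
      else false, ?_⟩
    intro t ht
    simp only [redN, List.mem_flatMap] at ht
    obtain ⟨⟨c, i⟩, hci, ht⟩ := ht
    rw [List.mem_zipIdx_iff_getElem?] at hci
    simp only at hci ht
    have hz : z i = !((τ c.1.2 == c.1.1) || (τ c.2.1.2 == c.2.1.1)) := by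
      simp only [z, hci]
    have hsat := hτ c (List.mem_of_getElem? hci)
    simp only [cls, List.mem_cons, List.not_mem_nil, or_false] at ht
    rcases ht with rfl | rfl | rfl | rfl | rfl | rfl
    · simp only [lv, if_true, hz]
      cases hA : (τ c.1.2 == c.1.1) <;> cases hB : (τ c.2.1.2 == c.2.1.1) <;> simp
    · simp only [lv, if_true, hz]
      have h1 : (τ c.1.2 == c.1.1) = true ∨ (τ c.2.1.2 == c.2.1.1) = true ∨
          (τ c.2.2.2 == c.2.2.1) = true := by
        simpa only [beq_iff_eq] using hsat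
      cases hA : (τ c.1.2 == c.1.1) <;> cases hB : (τ c.2.1.2 == c.2.1.1) <;>
        cases hC : (τ c.2.2.2 == c.2.2.1) <;> simp_all
    · simp
    · simp only [lv, nlv, if_true]
      cases τ c.1.2 <;> cases c.1.1 <;> simp
    · simp only [lv, nlv, if_true]
      cases τ c.2.1.2 <;> cases c.2.1.1 <;> simp
    · simp only [lv, nlv, if_true]
      cases τ c.2.2.2 <;> cases c.2.2.1 <;> simp
  · rintro ⟨τ, hτ⟩
    refine ⟨fun v => (τ (0, v, true) ^^ τ (2, 0, false)), fun c hc => ?_⟩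
    obtain ⟨i, hi⟩ := List.getElem?_of_mem hc
    have hmem : ∀ t ∈ cls c i, ¬ (τ t.1 = τ t.2.1 ∧ τ t.2.1 = τ t.2.2) := by
      intro t ht
      apply hτ
      rw [redN, List.mem_flatMap]
      exact ⟨(c, i), List.mem_zipIdx_iff_getElem?.2 hi, ht⟩
    have h1 := hmem _ (by simp [cls] : (lv c.1, lv c.2.1, ((1, i, true) : NV)) ∈ cls c i)
    have h2 := hmem _ (by simp [cls] :
      (lv c.2.2, ((1, i, false) : NV), ((2, 0, false) : NV)) ∈ cls c i)
    have h3 := hmem _ (by simp [cls] :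
      (((1, i, true) : NV), ((1, i, true) : NV), ((1, i, false) : NV)) ∈ cls c i)
    have h4 := hmem _ (by simp [cls] : (lv c.1, lv c.1, nlv c.1) ∈ cls c i)
    have h5 := hmem _ (by simp [cls] : (lv c.2.1, lv c.2.1, nlv c.2.1) ∈ cls c i)
    have h6 := hmem _ (by simp [cls] : (lv c.2.2, lv c.2.2, nlv c.2.2) ∈ cls c i)
    have key : ∀ l : Lit ℕ, ¬ (τ (lv l) = τ (lv l) ∧ τ (lv l) = τ (nlv l)) →
        τ (lv l) ≠ τ (2, 0, false) → (τ (0, l.2, true) ^^ τ (2, 0, false)) = l.1 := by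
      intro l hl hF
      have h7 := bool3 _ _ l.1 hl _ hF
      rw [← h7]
      obtain ⟨b, v⟩ := l
      cases b <;> rfl
    rcases bool1 _ _ _ _ _ _ h1 h2 h3 with h | h | h
    · exact Or.inl (key _ h4 h)
    · exact Or.inr (Or.inl (key _ h5 h))
    · exact Or.inr (Or.inr (key _ h6 h))

theorem redN_poly : Poly redN := by
  unfold redN cls lv nlv
  fun_prop

theorem hardI_NAE : HardI NAE := hardI_SAT3.trans redN_poly redN_correct

end Pool.Agent.NPC.WC648
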