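import Pool.Agent.H648R3.WC.Ratio

/-!
# Cubic graphs given by an involution on darts
-/

namespace Pool.Agent.H648R3.WC

open Finset

variable {V : Type} [Fintype V]

/-- A cubic graph given by an involution on its darts. -/
structure Darts (V : Type) where
  /-- the reversal of darts -/
  rev : V × Fin 3 → V × Fin 3
  rev_rev : ∀ d, rev (rev d) = d
  inj : ∀ v, Function.Injective (fun k => (rev (v, k)).1)
  ne : ∀ v k, (rev (v, k)).1 ≠ v

/-- the graph -/
def Darts.graph (D : Darts V) : SimpleGraph V where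
  Adj u v := ∃ k, (D.rev (u, k)).1 = v
  symm := ⟨by
    rintro u v ⟨k, rfl⟩
    refine ⟨(D.rev (u, k)).2, ?_⟩
    rw [Prod.mk.eta, D.rev_rev]⟩
  loopless := ⟨fun u h => by
    obtain ⟨k, hk⟩ := h
    exact D.ne u k hk⟩

theorem Darts.adj (D : Darts V) {u v : V} : D.graph.Adj u v ↔ ∃ k, (D.rev (u, k)).1 = v := Iff.rfl

/-- number of selected darts at a vertex -/
def cnt (x : V × Fin 3 → Bool) (v : V) : ℕ :=
  (x (v, 0)).toNat + (x (v, 1)).toNat + (x (v, 2)).toNat

theorem Darts.cubic (D : Darts V) : Cubic D.graph := by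
  intro v
  have : {u | D.graph.Adj v u} = Set.range (fun k => (D.rev (v, k)).1) := by
    ext u
    rfl
  rw [this, Set.ncard_range_of_injective (D.inj v)]
  simp

theorem dg_eq_three {G : SimpleGraph V} (h : Cubic G) (v : V) : dg G v = 3 := by
  classical
  have h1 := h v
  unfold dg
  rw [Set.ncard_eq_toFinset_card'] at h1
  rw [← h1]
  congr 1
  ext u
  simp

open Classical in
theorem Darts.n1_eq (D : Darts V) (X : V → V → Prop) (v : V) : n1 D.graph X v =
    cnt (fun d => decide (X d.1 (D.rev d).1)) v := by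
  unfold n1
  have h1 : univ.filter (fun u => D.graph.Adj v u ∧ X v u) =
      (univ.filter (fun k : Fin 3 => X v (D.rev (v, k)).1)).image (fun k => (D.rev (v, k)).1) := by
    ext u
    simp only [mem_filter, mem_univ, true_and, mem_image, D.adj]
    constructor
    · rintro ⟨⟨k, rfl⟩, hx⟩
      exact ⟨k, hx, rfl⟩
    · rintro ⟨k, hx, rfl⟩
      exact ⟨⟨k, rfl⟩, hx⟩
  have h2 : #(univ.filter (fun u => D.graph.Adj v u ∧ X v u)) =
      #(univ.filter (fun k : Fin 3 => X v (D.rev (v, k)).1)) := by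
    rw [h1, card_image_of_injective _ (D.inj v)]
  rw [show #(univ.filter (fun u => D.graph.Adj v u ∧ X v u)) = _ from h2]
  rw [card_filter, Fin.sum_univ_three]
  unfold cnt
  congr 1
  · congr 1
    · by_cases h : X v (D.rev (v, 0)).1 <;> simp [h]
    · by_cases h : X v (D.rev (v, 1)).1 <;> simp [h]
  · by_cases h : X v (D.rev (v, 2)).1 <;> simp [h]

theorem kwc_cubic {G : SimpleGraph V} (h : Cubic G) : KWeightColourable G 2 ↔
    ∃ X : V → V → Prop, (∀ u v, X u v ↔ X v u) ∧ ∀ u v, G.Adj u v → n1 G X u ≠ n1 G X v := by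
  rw [kwc_iff]
  constructor
  · intro h1
    obtain ⟨X, hX, hg⟩ := h1 (Fintype.card V) (by omega) 0 (by omega)
    refine ⟨X, hX, fun u v huv hcon => hg u v huv ?_⟩
    simp [hcon]
  · rintro ⟨X, hX, hg⟩ p _ q _
    refine ⟨X, hX, fun u v huv hcon => hg u v huv ?_⟩
    rw [dg_eq_three h, dg_eq_three h] at hcon
    have h2 : ((q : ℤ) + 1) * n1 G X u = ((q : ℤ) + 1) * n1 G X v := by linarith
    have h3 := mul_left_cancel₀ (by positivity : ((q : ℤ) + 1) ≠ 0) h2
    exact_mod_cast h3

theorem Darts.kwc (D : Darts V) : KWeightColourable D.graph 2 ↔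
    ∃ x : V × Fin 3 → Bool, (∀ d, x (D.rev d) = x d) ∧
      ∀ v k, cnt x v ≠ cnt x (D.rev (v, k)).1 := by
  classical
  rw [kwc_cubic D.cubic]
  constructor
  · rintro ⟨X, hX, hg⟩
    refine ⟨fun d => decide (X d.1 (D.rev d).1), fun d => ?_, fun v k => ?_⟩
    · have h1 : X (D.rev d).1 (D.rev (D.rev d)).1 ↔ X d.1 (D.rev d).1 := by
        rw [D.rev_rev]; exact hX _ _
      simp only [h1]
    · rw [← D.n1_eq X v, ← D.n1_eq X]
      exact hg v _ ⟨k, rfl⟩
  · rintro ⟨x, hx, hg⟩
    have hsym : ∀ u v, (∃ k, (D.rev (u, k)).1 = v ∧ x (u, k) = true) →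
        ∃ k, (D.rev (v, k)).1 = u ∧ x (v, k) = true := by
      rintro u v ⟨k, rfl, h⟩
      refine ⟨(D.rev (u, k)).2, ?_, ?_⟩
      · rw [Prod.mk.eta, D.rev_rev]
      · rw [Prod.mk.eta, hx, h]
    refine ⟨fun u v => ∃ k, (D.rev (u, k)).1 = v ∧ x (u, k) = true,
      fun u v => ⟨hsym u v, hsym v u⟩, ?_⟩
    have h2 : ∀ v, n1 D.graph (fun u v => ∃ k, (D.rev (u, k)).1 = v ∧ x (u, k) = true) v =
        cnt x v := by
      intro v
      rw [D.n1_eq]
      congr 1
      funext d
      obtain ⟨u, k⟩ := d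
      have h3 : (∃ k', (D.rev (u, k')).1 = (D.rev (u, k)).1 ∧ x (u, k') = true) ↔
          x (u, k) = true := by
        constructor
        · rintro ⟨k', h4, h5⟩
          rwa [← D.inj u h4]
        · intro h
          exact ⟨k, rfl, h⟩
      simp only [h3]
      cases x (u, k) <;> rfl
    rintro u v ⟨k, rfl⟩
    rw [h2, h2]
    exact hg u k

/-- 2-weight colourability is invariant under isomorphism. -/
theorem kwc_iso {W : Type} [Fintype W] {G : SimpleGraph V} {H : SimpleGraph W} (e : V ≃ W)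
    (h : ∀ u v, G.Adj u v ↔ H.Adj (e u) (e v)) (k : ℕ) (hH : KWeightColourable H k) :
    KWeightColourable G k := by
  classical
  intro S hS hS'
  obtain ⟨w, hw, hs⟩ := hH S hS hS'
  have hsum : ∀ v, vsum G (fun a => w (a.map e)) v = vsum H w (e v) := by
    intro v
    unfold vsum
    apply Finset.sum_bij (fun u _ => e u)
    · intro u hu
      simp only [mem_filter, mem_univ, true_and] at hu ⊢
      exact (h _ _).1 hu
    · intro u _ u' _ huu
      exact e.injective huu
    · intro u hu
      simp only [mem_filter, mem_univ, true_and] at hu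
      refine ⟨e.symm u, ?_, by simp⟩
      simp only [mem_filter, mem_univ, true_and]
      rw [h]
      simpa using hu
    · intro u _
      simp
  refine ⟨fun a => w (a.map e), ?_, ?_⟩
  · intro a ha
    apply hw
    induction a using Sym2.ind with
    | _ u v =>
      rw [Sym2.map_mk]
      exact (h u v).1 ha
  · intro u v huv
    rw [hsum, hsum]
    exact hs _ _ ((h u v).1 huv)

theorem cubic_iso {W : Type} [Fintype W] {G : SimpleGraph V} {H : SimpleGraph W} (e : V ≃ W)
    (h : ∀ u v, G.Adj u v ↔ H.Adj (e u) (e v)) (hH : Cubic H) : Cubic G := by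
  intro v
  rw [← hH (e v)]
  have : {u | H.Adj (e v) u} = e '' {u | G.Adj v u} := by
    ext u
    simp only [Set.mem_ofPred_eq, Set.mem_image]
    constructor
    · intro hu
      refine ⟨e.symm u, ?_, by simp⟩
      rw [h]
      simpa using hu
    · rintro ⟨u', hu', rfl⟩
      exact (h _ _).1 hu'
  rw [this, Set.ncard_image_of_injective _ e.injective]

end Pool.Agent.H648R3.WC
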