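import Pool.Agent.H671R2.ZDefs

/-!
# Edge weightings that colour the vertices by sums
-/

namespace Pool.Agent.H648R3.WC

open Pool.Agent.NPC Pool.Agent.NPC.R671

/-- The sum of the weights of the edges at the vertex `v`. -/
noncomputable def vsum {V : Type} [Fintype V] (G : SimpleGraph V) (w : Sym2 V → ℝ) (v : V) : ℝ :=
  open Classical in ∑ u ∈ Finset.univ.filter (fun u => G.Adj v u), w s(v, u)

/-- `G` is `S`-weight colourable: there is a weighting of the edges with elements of `S` such that
adjacent vertices have different sums. -/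
def WeightColourable {V : Type} [Fintype V] (G : SimpleGraph V) (S : Set ℝ) : Prop :=
  ∃ w : Sym2 V → ℝ, (∀ e ∈ G.edgeSet, w e ∈ S) ∧ ∀ u v, G.Adj u v → vsum G w u ≠ vsum G w v

/-- `G` is `k`-weight colourable: it is `S`-weight colourable for every set `S` of `k` real
numbers. -/
def KWeightColourable {V : Type} [Fintype V] (G : SimpleGraph V) (k : ℕ) : Prop :=
  ∀ S : Set ℝ, S.Finite → S.ncard = k → WeightColourable G S

/-- The decision problem 2-WC: given the adjacency matrix of a graph, is the graph 2-weight
colourable? -/
def TwoWC (M : List (List Bool)) : Prop :=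
  ∃ (n : ℕ) (G : SimpleGraph (Fin n)), adjMatrix G = M ∧ KWeightColourable G 2

/-- Every vertex has exactly three neighbours. -/
def Cubic {V : Type} [Fintype V] (G : SimpleGraph V) : Prop :=
  ∀ v, {u | G.Adj v u}.ncard = 3

end Pool.Agent.H648R3.WC
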