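import Pool.Agent.H648R3.WC.Cubic

/-!
# The reduction from not-all-equal satisfiability

`Q` is the set of clauses, `O` the set of occurrences of variables in clauses, `π` is the position
of the occurrences in the clauses, and the cycles of the permutation `σ` are the variables. Every
occurrence has a centre (type 0) and a diamond (types 1 to 4) that joins its centre to the centre of
the next occurrence of the variable. A clause is one vertex joined to the three centres.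
-/

namespace Pool.Agent.H648R3.WC

variable {Q O : Type}

/-- the involution on darts -/
def grev (π : Q × Fin 3 ≃ O) (σ : O ≃ O) : (Q ⊕ (O × Fin 5)) × Fin 3 → (Q ⊕ (O × Fin 5)) × Fin 3
  | (Sum.inl q, k) => (Sum.inr (π (q, k), 0), 2)
  | (Sum.inr (o, 0), 0) => (Sum.inr (o, 1), 0)
  | (Sum.inr (o, 0), 1) => (Sum.inr (σ.symm o, 4), 2)
  | (Sum.inr (o, 0), 2) => (Sum.inl (π.symm o).1, (π.symm o).2)
  | (Sum.inr (o, 1), 0) => (Sum.inr (o, 0), 0)
  | (Sum.inr (o, 1), 1) => (Sum.inr (o, 2), 0)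
  | (Sum.inr (o, 1), 2) => (Sum.inr (o, 3), 0)
  | (Sum.inr (o, 2), 0) => (Sum.inr (o, 1), 1)
  | (Sum.inr (o, 2), 1) => (Sum.inr (o, 3), 1)
  | (Sum.inr (o, 2), 2) => (Sum.inr (o, 4), 0)
  | (Sum.inr (o, 3), 0) => (Sum.inr (o, 1), 2)
  | (Sum.inr (o, 3), 1) => (Sum.inr (o, 2), 1)
  | (Sum.inr (o, 3), 2) => (Sum.inr (o, 4), 1)
  | (Sum.inr (o, 4), 0) => (Sum.inr (o, 2), 2)
  | (Sum.inr (o, 4), 1) => (Sum.inr (o, 3), 2)
  | (Sum.inr (o, 4), 2) => (Sum.inr (σ o, 0), 1)

theorem fin5_cases {P : Fin 5 → Prop} (h0 : P 0) (h1 : P 1) (h2 : P 2) (h3 : P 3) (h4 : P 4) :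
    ∀ i, P i
  | 0 => h0
  | 1 => h1
  | 2 => h2
  | 3 => h3
  | 4 => h4

theorem fin3_cases {P : Fin 3 → Prop} (h0 : P 0) (h1 : P 1) (h2 : P 2) : ∀ i, P i
  | 0 => h0
  | 1 => h1
  | 2 => h2

theorem grev_grev (π : Q × Fin 3 ≃ O) (σ : O ≃ O) (d : (Q ⊕ (O × Fin 5)) × Fin 3) :
    grev π σ (grev π σ d) = d := by
  obtain ⟨q | ⟨o, i⟩, k⟩ := d
  · simp [grev]
  · revert k; revert i
    refine fin5_cases ?_ ?_ ?_ ?_ ?_ <;> refine fin3_cases ?_ ?_ ?_ <;> simp [grev]

/-- the cubic graph of the reduction -/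
def gD (π : Q × Fin 3 ≃ O) (σ : O ≃ O) : Darts (Q ⊕ (O × Fin 5)) where
  rev := grev π σ
  rev_rev := grev_grev π σ
  inj := by
    rintro (q | ⟨o, i⟩)
    · intro k k' h
      simp only [grev, Sum.inr.injEq, Prod.mk.injEq, and_true] at h
      have h1 := π.injective h
      simp only [Prod.mk.injEq, true_and] at h1
      exact h1
    · revert i
      refine fin5_cases ?_ ?_ ?_ ?_ ?_ <;> intro k k' <;> revert k k' <;>
        refine fin3_cases ?_ ?_ ?_ <;> refine fin3_cases ?_ ?_ ?_ <;> simp [grev]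
  ne := by
    rintro (q | ⟨o, i⟩) k
    · simp [grev]
    · revert i k
      refine fin5_cases ?_ ?_ ?_ ?_ ?_ <;> refine fin3_cases ?_ ?_ ?_ <;> simp [grev]

/-- The diamond: the two dangling edges have the same weight, and the counts at the tips are
determined. -/
theorem diamond : ∀ p a b c d e p' : Bool,
    -- tip t : p a b, vertex u : a c d, vertex v : b c e, tip s : d e p'
    p.toNat + a.toNat + b.toNat ≠ a.toNat + c.toNat + d.toNat →
    p.toNat + a.toNat + b.toNat ≠ b.toNat + c.toNat + e.toNat →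
    a.toNat + c.toNat + d.toNat ≠ b.toNat + c.toNat + e.toNat →
    a.toNat + c.toNat + d.toNat ≠ d.toNat + e.toNat + p'.toNat →
    b.toNat + c.toNat + e.toNat ≠ d.toNat + e.toNat + p'.toNat →
    p = p' ∧ p.toNat + a.toNat + b.toNat = 1 + p.toNat ∧
      d.toNat + e.toNat + p'.toNat = 1 + p.toNat := by
  decide

/-- The centre: its three edges have the same weight. -/
theorem centre : ∀ a b x : Bool, a.toNat + b.toNat + x.toNat ≠ 1 + a.toNat →
    a.toNat + b.toNat + x.toNat ≠ 1 + b.toNat → a = x ∧ b = x := by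
  decide

theorem clause : ∀ a b c : Bool, a.toNat + b.toNat + c.toNat ≠ 3 * a.toNat →
    ¬ (a = b ∧ b = c) := by
  decide

/-- the weighting of a not-all-equal assignment -/
def gx (π : Q × Fin 3 ≃ O) (y : O → Bool) : (Q ⊕ (O × Fin 5)) × Fin 3 → Bool
  | (Sum.inl q, k) => y (π (q, k))
  | (Sum.inr (o, 0), _) => y o
  | (Sum.inr (o, 1), 0) => y o
  | (Sum.inr (o, 1), 1) => y o
  | (Sum.inr (o, 1), 2) => !(y o)
  | (Sum.inr (o, 2), _) => y o
  | (Sum.inr (o, 3), 0) => !(y o)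
  | (Sum.inr (o, 3), 1) => y o
  | (Sum.inr (o, 3), 2) => !(y o)
  | (Sum.inr (o, 4), 0) => y o
  | (Sum.inr (o, 4), 1) => !(y o)
  | (Sum.inr (o, 4), 2) => y o

theorem gadget_correct [Fintype Q] [Fintype O] (π : Q × Fin 3 ≃ O) (σ : O ≃ O) :
    KWeightColourable (gD π σ).graph 2 ↔ ∃ y : O → Bool, (∀ o, y (σ o) = y o) ∧
      ∀ q, ¬ (y (π (q, 0)) = y (π (q, 1)) ∧ y (π (q, 1)) = y (π (q, 2))) := by
  rw [Darts.kwc]
  constructor
  · rintro ⟨x, hx, hc⟩
    have hx' : ∀ d, x (grev π σ d) = x d := hx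
    have hc' : ∀ v k, cnt x v ≠ cnt x (grev π σ (v, k)).1 := hc
    -- the diamonds
    have hdia : ∀ o, x (Sum.inr (o, 1), 0) = x (Sum.inr (o, 4), 2) ∧
        cnt x (Sum.inr (o, 1)) = 1 + (x (Sum.inr (o, 1), 0)).toNat ∧
        cnt x (Sum.inr (o, 4)) = 1 + (x (Sum.inr (o, 4), 2)).toNat := by
      intro o
      have e1 : x (Sum.inr (o, 2), 0) = x (Sum.inr (o, 1), 1) := (hx' (Sum.inr (o, 2), 0)).symm
      have e2 : x (Sum.inr (o, 3), 0) = x (Sum.inr (o, 1), 2) := (hx' (Sum.inr (o, 3), 0)).symm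
      have e3 : x (Sum.inr (o, 3), 1) = x (Sum.inr (o, 2), 1) := (hx' (Sum.inr (o, 3), 1)).symm
      have e4 : x (Sum.inr (o, 4), 0) = x (Sum.inr (o, 2), 2) := (hx' (Sum.inr (o, 4), 0)).symm
      have e5 : x (Sum.inr (o, 4), 1) = x (Sum.inr (o, 3), 2) := (hx' (Sum.inr (o, 4), 1)).symm
      have c1 := hc' (Sum.inr (o, 1)) 1
      have c2 := hc' (Sum.inr (o, 1)) 2
      have c3 := hc' (Sum.inr (o, 2)) 1
      have c4 := hc' (Sum.inr (o, 2)) 2
      have c5 := hc' (Sum.inr (o, 3)) 2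
      simp only [grev, cnt, e1, e2, e3, e4, e5] at c1 c2 c3 c4 c5
      have h := diamond _ _ _ _ _ _ _ c1 c2 c3 c4 c5
      refine ⟨h.1, ?_, ?_⟩
      · simp only [cnt]
        exact h.2.1
      · simp only [cnt, e4, e5]
        rw [← h.1]
        rw [← h.1] at h
        exact h.2.2
    -- the centres
    have hcen : ∀ o, x (Sum.inr (o, 0), 0) = x (Sum.inr (o, 0), 2) ∧
        x (Sum.inr (o, 0), 1) = x (Sum.inr (o, 0), 2) := by
      intro o
      have e1 : x (Sum.inr (o, 1), 0) = x (Sum.inr (o, 0), 0) := (hx' (Sum.inr (o, 1), 0)).symm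
      have e2 : x (Sum.inr (σ.symm o, 4), 2) = x (Sum.inr (o, 0), 1) := hx' (Sum.inr (o, 0), 1)
      have c1 := hc' (Sum.inr (o, 0)) 0
      have c2 := hc' (Sum.inr (o, 0)) 1
      simp only [grev] at c1 c2
      rw [(hdia o).2.1, e1] at c1
      rw [(hdia (σ.symm o)).2.2, e2] at c2
      exact centre _ _ _ c1 c2
    refine ⟨fun o => x (Sum.inr (o, 0), 2), fun o => ?_, fun q => ?_⟩
    · -- invariance
      have e1 : x (Sum.inr (σ o, 0), 1) = x (Sum.inr (o, 4), 2) := hx' (Sum.inr (o, 4), 2)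
      have e2 : x (Sum.inr (o, 1), 0) = x (Sum.inr (o, 0), 0) := hx' (Sum.inr (o, 0), 0)
      simp only
      rw [← (hcen (σ o)).2, e1, ← (hdia o).1, e2, (hcen o).1]
    · have e1 : ∀ k, x (Sum.inl q, k) = x (Sum.inr (π (q, k), 0), 2) := fun k =>
        (hx' (Sum.inl q, k)).symm
      have c1 := hc' (Sum.inl q) 0
      simp only [grev, cnt] at c1
      rw [e1 0, e1 1, e1 2, (hcen (π (q, 0))).1, (hcen (π (q, 0))).2] at c1
      refine clause _ _ _ ?_
      intro h
      apply c1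
      rw [h]
      ring
  · rintro ⟨y, hy, hq⟩
    have hy' : ∀ o, y (σ.symm o) = y o := fun o => by
      have := hy (σ.symm o)
      rw [Equiv.apply_symm_apply] at this
      exact this.symm
    refine ⟨gx π y, fun d => ?_, fun v k => ?_⟩
    · change gx π y (grev π σ d) = gx π y d
      obtain ⟨q | ⟨o, i⟩, k⟩ := d
      · simp [grev, gx]
      · revert k; revert i
        refine fin5_cases ?_ ?_ ?_ ?_ ?_ <;> refine fin3_cases ?_ ?_ ?_ <;>
          simp [grev, gx, hy, hy']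
    · change cnt (gx π y) v ≠ cnt (gx π y) (grev π σ (v, k)).1
      have key : ∀ a b c : Bool, ¬ (a = b ∧ b = c) → ∀ z : Bool,
          a.toNat + b.toNat + c.toNat ≠ z.toNat + z.toNat + z.toNat := by decide
      obtain q | ⟨o, i⟩ := v
      · simp only [grev, cnt, gx]
        exact key _ _ _ (hq q) _
      · revert k; revert i
        refine fin5_cases ?_ ?_ ?_ ?_ ?_ <;> refine fin3_cases ?_ ?_ ?_ <;>
          simp only [grev, cnt, gx, hy, hy']
        all_goals first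
          | (exact (key _ _ _ (hq _) _).symm)
          | (cases y o <;> decide)

end Pool.Agent.H648R3.WC
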