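import Pool.Agent.H648R3.WC.Ratio
import Pool.Agent.H671R2.OOF.NP

/-!
# 2-WC is in NP
-/

namespace Pool.Agent.NPC.WC648

open Pool.Agent.NPC Pool.Agent.NPC.R671 Pool.Agent.H671R2.Ord Pool.Agent.H648R3.WC

/-- degree, from the matrix -/
def dM (M : List (List Bool)) (i : ℕ) : ℕ :=
  ((List.range M.length).filter (fun j => me M i j)).length

/-- selected degree, from the matrix -/
def cM (M X : List (List Bool)) (i : ℕ) : ℕ :=
  ((List.range M.length).filter (fun j => me M i j && me X i j)).length

/-- check of one selection -/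
def chk (M X : List (List Bool)) (p q : ℕ) : Bool :=
  (List.range M.length).all (fun i => (List.range M.length).all (fun j =>
    decide (me X i j = me X j i) && (!(me M i j) ||
      !(decide (p * dM M i + (q + 1) * cM M X i + M.length * dM M j =
        p * dM M j + (q + 1) * cM M X j + M.length * dM M i)))))

/-- the verifier -/
def vf (x : List (List Bool) × List (List (List (List Bool)))) : Bool :=
  wf x.1 && (List.range (2 * x.1.length + 1)).all (fun p =>
    (List.range (x.1.length + 1)).all (fun q => chk x.1 ((x.2.getD p []).getD q []) p q))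

theorem card_filter_range {n : ℕ} (f : ℕ → Bool) (P : Fin n → Prop) [DecidablePred P]
    (h : ∀ i : Fin n, f i = true ↔ P i) :
    ((List.range n).filter f).length = (Finset.univ.filter P).card := by
  classical
  have h1 : ((List.range n).filter f).length = ((Finset.range n).filter (fun i => f i = true)).card := by
    rw [← List.toFinset_card_of_nodup (List.Nodup.filter _ List.nodup_range)]
    congr 1
    ext i
    simp
  rw [h1]
  symm
  apply Finset.card_bij (fun (i : Fin n) _ => (i : ℕ))
  · intro i hi
    rw [Finset.mem_filter] at hi ⊢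
    exact ⟨Finset.mem_range.2 i.isLt, (h i).2 hi.2⟩
  · intro i _ j _ hij
    exact Fin.ext hij
  · intro i hi
    rw [Finset.mem_filter, Finset.mem_range] at hi
    exact ⟨⟨i, hi.1⟩, by rw [Finset.mem_filter]; exact ⟨Finset.mem_univ _, (h ⟨i, hi.1⟩).1 hi.2⟩, rfl⟩

theorem dM_eq {n : ℕ} (G : SimpleGraph (Fin n)) (i : Fin n) : dM (adjMatrix G) i = dg G i := by
  classical
  unfold dM dg
  rw [length_adjMatrix]
  rw [card_filter_range _ (fun j => G.Adj i j) (fun j => me_adj G i j)]

theorem cM_eq {n : ℕ} (G : SimpleGraph (Fin n)) (X : List (List Bool)) (i : Fin n) :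
    cM (adjMatrix G) X i = n1 G (fun u v => me X u v = true) i := by
  classical
  unfold cM n1
  rw [length_adjMatrix]
  rw [card_filter_range _ (fun j => G.Adj i j ∧ me X i j = true) (fun j => by
    rw [Bool.and_eq_true, me_adj G i j])]
  congr!

theorem chk_iff {n : ℕ} (G : SimpleGraph (Fin n)) (X : List (List Bool)) (p q : ℕ) :
    chk (adjMatrix G) X p q = true ↔ (∀ u v : Fin n, me X u v = true ↔ me X v u = true) ∧
      GoodSel G (fun u v : Fin n => me X u v = true) ((p : ℤ) - n) ((q : ℤ) + 1) := by
  simp only [chk, length_adjMatrix, List.all_eq_true, List.mem_range, Bool.and_eq_true,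
    Bool.or_eq_true, Bool.not_eq_true', decide_eq_true_eq, decide_eq_false_iff_not]
  have key : ∀ u v : Fin n, (p * dM (adjMatrix G) u + (q + 1) * cM (adjMatrix G) X u +
        n * dM (adjMatrix G) v = p * dM (adjMatrix G) v + (q + 1) * cM (adjMatrix G) X v +
        n * dM (adjMatrix G) u) ↔
      (((p : ℤ) - n) * dg G u + ((q : ℤ) + 1) * n1 G (fun u v : Fin n => me X u v = true) u =
      ((p : ℤ) - n) * dg G v + ((q : ℤ) + 1) * n1 G (fun u v : Fin n => me X u v = true) v) := by
    intro u v
    rw [dM_eq, dM_eq, cM_eq, cM_eq]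
    zify
    constructor <;> intro h <;> linarith
  constructor
  · intro h
    refine ⟨fun u v => ?_, fun u v huv hcon => ?_⟩
    · rw [(h u u.isLt v v.isLt).1]
    · rcases (h u u.isLt v v.isLt).2 with h1 | h1
      · rw [(me_adj G u v).2 huv] at h1
        simp at h1
      · exact h1 ((key u v).2 hcon)
  · rintro ⟨h1, h2⟩ i hi j hj
    refine ⟨?_, ?_⟩
    · have := h1 ⟨i, hi⟩ ⟨j, hj⟩
      exact Bool.eq_iff_iff.2 this
    · by_cases hm : me (adjMatrix G) i j = true
      · right
        intro hcon
        exact h2 ⟨i, hi⟩ ⟨j, hj⟩ ((me_adj G ⟨i, hi⟩ ⟨j, hj⟩).1 hm) ((key ⟨i, hi⟩ ⟨j, hj⟩).1 hcon)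
      · left
        simpa using hm

/-- the matrix of a relation -/
noncomputable def mat {n : ℕ} (X : Fin n → Fin n → Prop) : List (List Bool) :=
  open Classical in List.ofFn fun i => List.ofFn fun j => decide (X i j)

theorem me_mat {n : ℕ} (X : Fin n → Fin n → Prop) (a b : Fin n) :
    me (mat X) a b = true ↔ X a b := by
  simp [me, mat, List.getD_eq_getElem?_getD]

theorem getD_map_range {α : Type} (n : ℕ) (f : ℕ → α) (i : ℕ) (hi : i < n) (d : α) :
    ((List.range n).map f).getD i d = f i := by
  rw [List.getD_eq_getElem?_getD, List.getElem?_eq_getElem (by simpa using hi)]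
  simp

theorem twoWC_iff (M : List (List Bool)) : TwoWC M ↔
    ∃ W, sz W ≤ ((2 * Polynomial.X + 1) * ((Polynomial.X + 1) * (Polynomial.X *
      (Polynomial.X * 4 + 2) + 2) + 2) + 1 : Polynomial ℕ).eval (sz M) ∧ vf (M, W) = true := by
  constructor
  · rintro ⟨n, G, rfl, h⟩
    rw [kwc_iff] at h
    simp only [Fintype.card_fin] at h
    have h1 : ∀ p q, ∃ X : Fin n → Fin n → Prop, p ≤ 2 * n → q ≤ n →
        (∀ u v, X u v ↔ X v u) ∧ GoodSel G X ((p : ℤ) - n) ((q : ℤ) + 1) := by
      intro p q
      by_cases hp : p ≤ 2 * n ∧ q ≤ n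
      · obtain ⟨X, hX⟩ := h p hp.1 q hp.2
        exact ⟨X, fun _ _ => hX⟩
      · exact ⟨fun _ _ => True, fun a b => absurd ⟨a, b⟩ hp⟩
    choose X hX using h1
    refine ⟨(List.range (2 * n + 1)).map (fun p => (List.range (n + 1)).map (fun q =>
      mat (X p q))), ?_, ?_⟩
    · have hn : n ≤ sz (adjMatrix G) := by
        have := length_lt_sz (adjMatrix G)
        rw [length_adjMatrix] at this
        exact this.le
      have e1 : ∀ p q, ∀ r ∈ mat (X p q), sz r ≤ n * 4 + 1 := by
        intro p q r hr
        classical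
        unfold mat at hr
        rw [List.mem_ofFn] at hr
        obtain ⟨i, rfl⟩ := hr
        have := sz_le_length_mul (List.ofFn fun j => decide (X p q i j)) 3 (fun b _ => sz_bool_le b)
        simpa using this
      have e2 : ∀ p q, sz (mat (X p q)) ≤ n * (n * 4 + 2) + 1 := by
        intro p q
        have := sz_le_length_mul (mat (X p q)) _ (e1 p q)
        simpa [mat] using this
      have e3 : ∀ p, sz ((List.range (n + 1)).map (fun q => mat (X p q))) ≤
          (n + 1) * (n * (n * 4 + 2) + 2) + 1 := by
        intro p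
        have := sz_le_length_mul ((List.range (n + 1)).map (fun q => mat (X p q)))
          (n * (n * 4 + 2) + 1) (by
            intro a ha
            obtain ⟨q, _, rfl⟩ := List.mem_map.1 ha
            exact e2 p q)
        simpa using this
      have e4 := sz_le_length_mul ((List.range (2 * n + 1)).map (fun p =>
        (List.range (n + 1)).map (fun q => mat (X p q)))) ((n + 1) * (n * (n * 4 + 2) + 2) + 1) (by
            intro a ha
            obtain ⟨q, _, rfl⟩ := List.mem_map.1 ha
            exact e3 q)
      rw [List.length_map, List.length_range] at e4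
      have e5 : sz ((List.range (2 * n + 1)).map (fun p =>
        (List.range (n + 1)).map (fun q => mat (X p q)))) ≤
        (2 * n + 1) * ((n + 1) * (n * (n * 4 + 2) + 2) + 2) + 1 := e4
      refine e5.trans ?_
      simp only [Polynomial.eval_add, Polynomial.eval_mul, Polynomial.eval_X,
        Polynomial.eval_ofNat, Polynomial.eval_one]
      gcongr
    · simp only [vf, Bool.and_eq_true, List.all_eq_true, List.mem_range, length_adjMatrix]
      refine ⟨(wf_iff _).2 ⟨n, G, rfl⟩, fun p hp q hq => ?_⟩
      rw [getD_map_range _ _ _ hp, getD_map_range _ _ _ hq, chk_iff]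
      obtain ⟨h1, h2⟩ := hX p q (by omega) (by omega)
      have h3 : (fun u v : Fin n => me (mat (X p q)) u v = true) = X p q := by
        funext u v
        exact propext (me_mat (X p q) u v)
      rw [h3]
      refine ⟨fun u v => ?_, h2⟩
      rw [me_mat, me_mat]
      exact h1 u v
  · rintro ⟨W, _, h⟩
    simp only [vf, Bool.and_eq_true, List.all_eq_true, List.mem_range] at h
    obtain ⟨h1, h2⟩ := h
    obtain ⟨n, G, rfl⟩ := (wf_iff M).1 h1
    refine ⟨n, G, rfl, ?_⟩
    rw [kwc_iff]
    intro p hp q hq
    rw [Fintype.card_fin] at hp hq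
    rw [length_adjMatrix] at h2
    have h3 := (chk_iff G _ p q).1 (h2 p (by omega) q (by omega))
    refine ⟨_, h3.1, ?_⟩
    rw [Fintype.card_fin]
    exact h3.2

attribute [local irreducible] me

theorem dM_poly {α : Type} [TEnc α] {M : α → List (List Bool)} {i : α → ℕ} (h1 : Poly M)
    (h2 : Poly i) : Poly (fun x => dM (M x) (i x)) := by
  unfold dM
  refine NPC.Poly.length ?_
  exact NPC.Poly.filter (l := fun x => List.range (M x).length) (p := fun x j => me (M x) (i x) j)
    (UPoly.range (UPoly.length h1)) (by fun_prop)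

theorem cM_poly {α : Type} [TEnc α] {M X : α → List (List Bool)} {i : α → ℕ} (h1 : Poly M)
    (h1' : Poly X) (h2 : Poly i) : Poly (fun x => cM (M x) (X x) (i x)) := by
  unfold cM
  refine NPC.Poly.length ?_
  exact NPC.Poly.filter (l := fun x => List.range (M x).length)
    (p := fun x j => me (M x) (i x) j && me (X x) (i x) j)
    (UPoly.range (UPoly.length h1)) (by fun_prop)

attribute [local fun_prop] dM_poly cM_poly

theorem chk_poly {α : Type} [TEnc α] {M X : α → List (List Bool)} {p q : α → ℕ} (h1 : Poly M)
    (h1' : Poly X) (h2 : Poly p) (h3 : Poly q) : Poly (fun x => chk (M x) (X x) (p x) (q x)) := by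
  unfold chk
  refine all2_poly (m := fun x => (M x).length) (UPoly.length h1) (F := fun x i j =>
    decide (me (X x) i j = me (X x) j i) && (!(me (M x) i j) ||
      !(decide (p x * dM (M x) i + (q x + 1) * cM (M x) (X x) i + (M x).length * dM (M x) j =
        p x * dM (M x) j + (q x + 1) * cM (M x) (X x) j + (M x).length * dM (M x) i)))) ?_
  fun_prop

theorem vf_poly : Poly vf := by
  unfold vf
  refine NPC.Poly.and (wf_poly.comp (by fun_prop)) ?_
  have u1 : UPoly (fun x : List (List Bool) × List (List (List (List Bool))) => x.1.length) :=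
    UPoly.length (by fun_prop)
  refine NPC.Poly.all (l := fun x : List (List Bool) × List (List (List (List Bool))) =>
    List.range (2 * x.1.length + 1)) (p := fun x p => (List.range (x.1.length + 1)).all
      (fun q => chk x.1 ((x.2.getD p []).getD q []) p q))
    (UPoly.range (UPoly.add (UPoly.mul (UPoly.const 2) u1) (UPoly.const 1))) ?_
  refine NPC.Poly.all
    (l := fun x : (List (List Bool) × List (List (List (List Bool)))) × ℕ =>
    List.range (x.1.1.length + 1)) (p := fun x q => chk x.1.1 ((x.1.2.getD x.2 []).getD q []) x.2 q)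
    (UPoly.range (UPoly.add (UPoly.length (by fun_prop)) (UPoly.const 1))) ?_
  exact chk_poly (by fun_prop) (by fun_prop) (by fun_prop) (by fun_prop)

/-- **2-WC is in `NP`.** -/
theorem twoWC_inNPP : InNPP TwoWC := inNPP_of vf_poly _ twoWC_iff

end Pool.Agent.NPC.WC648
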