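import Mathlib

/-!
# The cyclic successor in the classes of a function
-/

namespace Pool.Agent.H648R3.WC

/-- The next number below `N` (cyclically) in the same class of `f`. -/
def nxtf {α : Type} [DecidableEq α] (N : ℕ) (f : ℕ → α) (o : ℕ) : ℕ :=
  (((List.range N).filter (fun j => decide (o < j) && decide (f j = f o))).head?).getD
    ((((List.range N).filter (fun j => decide (f j = f o))).head?).getD 0)

variable {α : Type} [DecidableEq α]

theorem nxtf_spec {N : ℕ} {f : ℕ → α} {o : ℕ} (ho : o < N) : ∃ j, nxtf N f o = j ∧ j < N ∧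
    f j = f o ∧ ((o < j ∧ ∀ k, o < k → k < j → f k ≠ f o) ∨
      (j ≤ o ∧ (∀ k, o < k → k < N → f k ≠ f o) ∧ ∀ k, k < j → f k ≠ f o)) := by
  unfold nxtf
  rw [List.head?_filter, List.head?_filter]
  cases h1 : (List.range N).find? (fun j => decide (o < j) && decide (f j = f o)) with
  | some j =>
    rw [List.find?_range_eq_some] at h1
    obtain ⟨h2, h3, h4⟩ := h1
    rw [List.mem_range] at h3
    simp only [Bool.and_eq_true, decide_eq_true_eq] at h2
    refine ⟨j, rfl, h3, h2.2, Or.inl ⟨h2.1, fun k hk hkj hfk => ?_⟩⟩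
    have := h4 k hkj
    simp [hk, hfk] at this
  | none =>
    rw [List.find?_range_eq_none] at h1
    cases h2 : (List.range N).find? (fun j => decide (f j = f o)) with
    | none =>
      rw [List.find?_range_eq_none] at h2
      have := h2 o ho
      simp at this
    | some j =>
      rw [List.find?_range_eq_some] at h2
      obtain ⟨h3, h4, h5⟩ := h2
      rw [List.mem_range] at h4
      simp only [decide_eq_true_eq] at h3
      refine ⟨j, rfl, h4, h3, Or.inr ⟨?_, fun k hk hkN hfk => ?_, fun k hk hfk => ?_⟩⟩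
      · by_contra hc
        have := h5 o (by omega)
        simp at this
      · have := h1 k hkN
        simp [hk, hfk] at this
      · have := h5 k hk
        simp [hfk] at this

theorem nxtf_lt {N : ℕ} {f : ℕ → α} {o : ℕ} (ho : o < N) : nxtf N f o < N := by
  obtain ⟨j, h, hj, _⟩ := nxtf_spec (f := f) ho
  rw [h]; exact hj

theorem nxtf_class {N : ℕ} {f : ℕ → α} {o : ℕ} (ho : o < N) : f (nxtf N f o) = f o := by
  obtain ⟨j, h, _, hj, _⟩ := nxtf_spec (f := f) ho
  rw [h]; exact hj

theorem nxtf_inj {N : ℕ} {f : ℕ → α} {o o' : ℕ} (ho : o < N) (ho' : o' < N)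
    (h : nxtf N f o = nxtf N f o') : o = o' := by
  obtain ⟨j, h1, hj, hf, hc⟩ := nxtf_spec (f := f) ho
  obtain ⟨j', h1', hj', hf', hc'⟩ := nxtf_spec (f := f) ho'
  have hjj : j = j' := by rw [← h1, ← h1', h]
  subst hjj
  have hff : f o = f o' := by rw [← hf, hf']
  rcases lt_trichotomy o o' with hlt | heq | hlt
  · exfalso
    rcases hc' with ⟨a1, a2⟩ | ⟨a1, a2, a3⟩
    · rcases hc with ⟨b1, b2⟩ | ⟨b1, b2, b3⟩
      · exact b2 o' hlt a1 hff.symm
      · omega
    · rcases hc with ⟨b1, b2⟩ | ⟨b1, b2, b3⟩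
      · exact a3 o b1 hff
      · exact b2 o' hlt ho' hff.symm
  · exact heq
  · exfalso
    rcases hc with ⟨a1, a2⟩ | ⟨a1, a2, a3⟩
    · rcases hc' with ⟨b1, b2⟩ | ⟨b1, b2, b3⟩
      · exact b2 o hlt a1 hff
      · omega
    · rcases hc' with ⟨b1, b2⟩ | ⟨b1, b2, b3⟩
      · exact a3 o' b1 hff.symm
      · exact b2 o hlt ho hff

/-- The permutation whose cycles are the classes. -/
noncomputable def perm (N : ℕ) (f : ℕ → α) : Fin N ≃ Fin N :=
  Equiv.ofBijective (fun o => ⟨nxtf N f o, nxtf_lt o.isLt⟩)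
    (Finite.injective_iff_bijective.1 fun o o' h => by
      apply Fin.ext
      exact nxtf_inj o.isLt o'.isLt (congrArg Fin.val h))

theorem perm_val (N : ℕ) (f : ℕ → α) (o : Fin N) : ((perm N f o : Fin N) : ℕ) = nxtf N f o := rfl

theorem perm_const {N : ℕ} {f : ℕ → α} {y : Fin N → Bool} (hy : ∀ o, y (perm N f o) = y o) :
    ∀ o o' : Fin N, f o = f o' → y o = y o' := by
  have key : ∀ (d : ℕ) (o o' : Fin N), (o' : ℕ) - o ≤ d → o ≤ o' → f o = f o' → y o = y o' := by
    intro d
    induction d with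
    | zero =>
      intro o o' h1 h2 _
      have : o = o' := Fin.ext (by have : (o : ℕ) ≤ o' := h2; omega)
      rw [this]
    | succ d ih =>
      intro o o' h1 h2 hf
      rcases eq_or_lt_of_le h2 with h3 | h3
      · rw [h3]
      · have h3' : (o : ℕ) < o' := h3
        obtain ⟨j, e1, hj, hfj, hc⟩ := nxtf_spec (f := f) o.isLt
        rcases hc with ⟨a1, a2⟩ | ⟨a1, a2, a3⟩
        · have h4 : j ≤ o' := by
            by_contra hcon
            exact a2 o' h3' (by omega) hf.symm
          rw [← hy o]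
          have h5 : ((perm N f o : Fin N) : ℕ) = j := by rw [perm_val, e1]
          apply ih
          · rw [h5]; omega
          · change ((perm N f o : Fin N) : ℕ) ≤ o'
            rw [h5]; exact h4
          · rw [h5, hfj, hf]
        · exact absurd hf.symm (a2 o' h3' o'.isLt)
  intro o o' hf
  rcases le_total o o' with h | h
  · exact key _ o o' le_rfl h hf
  · exact (key _ o' o le_rfl h hf.symm).symm

end Pool.Agent.H648R3.WC
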