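import Pool.Agent.H648R3.WC.Defs

/-!
# Finitely many ratios suffice
-/

namespace Pool.Agent.H648R3.WC

open Finset

section

variable {V : Type} [Fintype V]

open Classical in
/-- degree -/
noncomputable def dg (G : SimpleGraph V) (v : V) : ℕ := #{u | G.Adj v u}

open Classical in
/-- number of selected edges at `v` -/
noncomputable def n1 (G : SimpleGraph V) (X : V → V → Prop) (v : V) : ℕ := #{u | G.Adj v u ∧ X v u}

theorem dg_le (G : SimpleGraph V) (v : V) : dg G v ≤ Fintype.card V := card_le_univ _

theorem n1_le (G : SimpleGraph V) (X : V → V → Prop) (v : V) : n1 G X v ≤ Fintype.card V :=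
  card_le_univ _

/-- The selection `X` of edges separates adjacent vertices, for the weights `p` and `p + q`. -/
def GoodSel (G : SimpleGraph V) (X : V → V → Prop) (p q : ℤ) : Prop :=
  ∀ u v, G.Adj u v → p * dg G u + q * n1 G X u ≠ p * dg G v + q * n1 G X v

theorem vsum_two (G : SimpleGraph V) (X : V → V → Prop) (a c : ℝ) (w : Sym2 V → ℝ)
    (hw : ∀ u v, G.Adj u v → w s(u, v) = a + open Classical in if X u v then c else 0) (v : V) :
    vsum G w v = a * dg G v + c * n1 G X v := by
  classical
  unfold vsum dg n1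
  have h1 : ∑ u ∈ univ.filter (fun u => G.Adj v u), w s(v, u) =
      ∑ u ∈ univ.filter (fun u => G.Adj v u), (a + if X v u then c else 0) := by
    apply Finset.sum_congr rfl
    intro u hu
    rw [hw v u (Finset.mem_filter.1 hu).2]
  have h2 : univ.filter (fun u => G.Adj v u ∧ X v u) =
      (univ.filter (fun u => G.Adj v u)).filter (fun u => X v u) := by
    rw [Finset.filter_filter]
  rw [h2]
  convert h1 using 1
  rw [Finset.sum_add_distrib, Finset.sum_const, ← Finset.sum_filter, Finset.sum_const, nsmul_eq_mul,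
    nsmul_eq_mul]
  ring

/-- Weightings from selections. -/
theorem colourable_of_sel (G : SimpleGraph V) (X : V → V → Prop)
    (hX : ∀ u v, G.Adj u v → (X u v ↔ X v u)) (a c : ℝ) {S : Set ℝ} (ha : a ∈ S) (hc : a + c ∈ S)
    (h : ∀ u v, G.Adj u v → a * dg G u + c * n1 G X u ≠ a * dg G v + c * n1 G X v) :
    WeightColourable G S := by
  classical
  let w : Sym2 V → ℝ := fun e => a + if ∃ u v, e = s(u, v) ∧ G.Adj u v ∧ X u v then c else 0
  have hw : ∀ u v, G.Adj u v → w s(u, v) = a + if X u v then c else 0 := by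
    intro u v huv
    have h1 : (∃ u' v', s(u, v) = s(u', v') ∧ G.Adj u' v' ∧ X u' v') ↔ X u v := by
      constructor
      · rintro ⟨u', v', he, ha', hx⟩
        rcases Sym2.eq_iff.1 he with ⟨rfl, rfl⟩ | ⟨rfl, rfl⟩
        · exact hx
        · exact (hX _ _ huv).2 hx
      · intro hx
        exact ⟨u, v, rfl, huv, hx⟩
    simp only [w, h1]
  refine ⟨w, ?_, ?_⟩
  · intro e _
    simp only [w]
    split_ifs
    · exact hc
    · rwa [add_zero]
  · intro u v huv
    rw [vsum_two G X a c w (by intro u v h; rw [hw u v h]) u,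
      vsum_two G X a c w (by intro u v h; rw [hw u v h]) v]
    exact h u v huv

theorem sel_of_colourable (G : SimpleGraph V) {p q : ℤ} (hq : 0 < q)
    (h : WeightColourable G {(p : ℝ), (p : ℝ) + q}) :
    ∃ X : V → V → Prop, (∀ u v, X u v ↔ X v u) ∧ GoodSel G X p q := by
  classical
  obtain ⟨w, hw, hs⟩ := h
  have hq' : (q : ℝ) ≠ 0 := by exact_mod_cast hq.ne'
  refine ⟨fun u v => w s(u, v) = (p : ℝ) + q, fun u v => by
    change w s(u, v) = (p : ℝ) + q ↔ w s(v, u) = (p : ℝ) + q
    rw [Sym2.eq_swap], ?_⟩
  have h1 : ∀ u v, G.Adj u v → w s(u, v) = (p : ℝ) + if w s(u, v) = (p : ℝ) + q then (q : ℝ)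
      else 0 := by
    intro u v huv
    split_ifs with h2
    · exact h2
    · rcases hw s(u, v) huv with h3 | h3
      · rw [h3, add_zero]
      · exact absurd h3 h2
  intro u v huv he
  apply hs u v huv
  rw [vsum_two G (fun u v => w s(u, v) = (p : ℝ) + q) p q w h1 u,
    vsum_two G (fun u v => w s(u, v) = (p : ℝ) + q) p q w h1 v]
  exact_mod_cast he

/-- `G` is 2-weight colourable if and only if there is a good selection for each of finitely many
ratios. -/
theorem kwc_iff (G : SimpleGraph V) : KWeightColourable G 2 ↔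
    ∀ p ≤ 2 * Fintype.card V, ∀ q ≤ Fintype.card V, ∃ X : V → V → Prop, (∀ u v, X u v ↔ X v u) ∧
      GoodSel G X ((p : ℤ) - Fintype.card V) ((q : ℤ) + 1) := by
  constructor
  · intro h p _ q _
    apply sel_of_colourable G (by omega)
    apply h _ (by simp)
    rw [Set.ncard_pair]
    intro h1
    have : ((q : ℤ) + 1 : ℤ) = 0 := by
      have h2 : (((q : ℤ) + 1 : ℤ) : ℝ) = 0 := by linarith
      exact_mod_cast h2
    omega
  · intro h S _ hS
    obtain ⟨a, b, hab, rfl⟩ := Set.ncard_eq_two.1 hS
    have hba : b - a ≠ 0 := sub_ne_zero.2 hab.symm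
    by_cases hr : ∃ p ≤ 2 * Fintype.card V, ∃ q ≤ Fintype.card V,
        a * ((q : ℝ) + 1) = ((p : ℝ) - Fintype.card V) * (b - a)
    · obtain ⟨p, hp, q, hq, he⟩ := hr
      obtain ⟨X, hX, hg⟩ := h p hp q hq
      refine colourable_of_sel G X (fun u v _ => hX u v) a (b - a) (by simp) (by simp) ?_
      intro u v huv hcon
      apply hg u v huv
      have h1 : (((p : ℝ) - Fintype.card V) * dg G u + ((q : ℝ) + 1) * n1 G X u) * (b - a) =
          (((p : ℝ) - Fintype.card V) * dg G v + ((q : ℝ) + 1) * n1 G X v) * (b - a) := by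
        have e1 : (((p : ℝ) - Fintype.card V) * dg G u + ((q : ℝ) + 1) * n1 G X u) * (b - a) =
          (((p : ℝ) - Fintype.card V) * (b - a)) * dg G u + ((q : ℝ) + 1) * ((b - a) * n1 G X u) := by
          ring
        have e2 : (((p : ℝ) - Fintype.card V) * dg G v + ((q : ℝ) + 1) * n1 G X v) * (b - a) =
          (((p : ℝ) - Fintype.card V) * (b - a)) * dg G v + ((q : ℝ) + 1) * ((b - a) * n1 G X v) := by
          ring
        rw [e1, e2, ← he]
        have e3 : a * ((q : ℝ) + 1) * dg G u + ((q : ℝ) + 1) * ((b - a) * n1 G X u) =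
            ((q : ℝ) + 1) * (a * dg G u + (b - a) * n1 G X u) := by ring
        have e4 : a * ((q : ℝ) + 1) * dg G v + ((q : ℝ) + 1) * ((b - a) * n1 G X v) =
            ((q : ℝ) + 1) * (a * dg G v + (b - a) * n1 G X v) := by ring
        rw [e3, e4, hcon]
      have h2 := mul_right_cancel₀ hba h1
      exact_mod_cast h2
    · obtain ⟨X, hX, hg⟩ := h (Fintype.card V) (by omega) 0 (by omega)
      refine colourable_of_sel G X (fun u v _ => hX u v) a (b - a) (by simp) (by simp) ?_
      -- a conflict gives a critical ratio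
      have key : ∀ u v, G.Adj u v → dg G v ≤ dg G u →
          a * dg G u + (b - a) * n1 G X u ≠ a * dg G v + (b - a) * n1 G X v := by
        intro u v huv hle hcon
        rcases Nat.eq_or_lt_of_le hle with heq | hlt
        · apply hg u v huv
          rw [heq] at hcon
          have h1 : (b - a) * (n1 G X u : ℝ) = (b - a) * n1 G X v := by linarith
          have h2 := mul_left_cancel₀ hba h1
          have h3 : n1 G X u = n1 G X v := by exact_mod_cast h2
          simp [heq, h3]
        · apply hr
          have b1 := dg_le G u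
          have b2 := n1_le G X u
          have b3 := n1_le G X v
          refine ⟨Fintype.card V + n1 G X v - n1 G X u, by omega, dg G u - dg G v - 1, by omega, ?_⟩
          have c1 : ((Fintype.card V + n1 G X v - n1 G X u : ℕ) : ℝ) =
              (Fintype.card V : ℝ) + n1 G X v - n1 G X u := by
            rw [Nat.cast_sub (by omega), Nat.cast_add]
          have c2 : ((dg G u - dg G v - 1 : ℕ) : ℝ) = (dg G u : ℝ) - dg G v - 1 := by
            rw [Nat.cast_sub (by omega), Nat.cast_sub (by omega)]
            simp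
          rw [c1, c2]
          have : a * ((dg G u : ℝ) - dg G v) = ((n1 G X v : ℝ) - n1 G X u) * (b - a) := by
            linarith
          linarith
      intro u v huv
      rcases le_total (dg G v) (dg G u) with h1 | h1
      · exact key u v huv h1
      · exact (key v u huv.symm h1).symm

end

end Pool.Agent.H648R3.WC
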