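import Pool.Agent.H648R3.WC.Gadget
import Pool.Agent.H648R3.WC.Next
import Pool.Agent.H648R3.WC.Nae
import Pool.Agent.NPC.Dec

/-!
# The cubic graph of a monotone not-all-equal formula
-/

namespace Pool.Agent.NPC.WC648

open Pool.Agent.NPC Pool.Agent.NPC.R671 Pool.Agent.H648R3.WC

/-- formulas -/
abbrev Φ : Type := List (NV × NV × NV)

/-- the variable at the occurrence number `o` -/
def var (φ : Φ) (o : ℕ) : NV :=
  if o % 3 = 0 then (φ.getD (o / 3) ((0, 0, false), (0, 0, false), (0, 0, false))).1 else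
    if o % 3 = 1 then (φ.getD (o / 3) ((0, 0, false), (0, 0, false), (0, 0, false))).2.1 else
      (φ.getD (o / 3) ((0, 0, false), (0, 0, false), (0, 0, false))).2.2

/-- the next occurrence of the same variable -/
def nxt (φ : Φ) (o : ℕ) : ℕ := nxtf (φ.length * 3) (var φ) o

/-- adjacency of labels, one direction -/
def ad0 (φ : Φ) (a b : ℕ × ℕ) : Bool :=
  (decide (a.1 = 5) && (decide (b.1 = 0) && decide (b.2 / 3 = a.2))) ||
  ((decide (a.1 = 0) && (decide (b.1 = 1) && decide (a.2 = b.2))) ||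
  ((decide (a.1 = 1) && (decide (b.1 = 2) && decide (a.2 = b.2))) ||
  ((decide (a.1 = 1) && (decide (b.1 = 3) && decide (a.2 = b.2))) ||
  ((decide (a.1 = 2) && (decide (b.1 = 3) && decide (a.2 = b.2))) ||
  ((decide (a.1 = 2) && (decide (b.1 = 4) && decide (a.2 = b.2))) ||
  ((decide (a.1 = 3) && (decide (b.1 = 4) && decide (a.2 = b.2))) ||
  (decide (a.1 = 4) && (decide (b.1 = 0) && decide (nxt φ a.2 = b.2)))))))))

/-- adjacency of labels -/
def ad (φ : Φ) (a b : ℕ × ℕ) : Bool := ad0 φ a b || ad0 φ b a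

theorem ad_symm (φ : Φ) (a b : ℕ × ℕ) : ad φ a b = ad φ b a := by
  unfold ad
  exact Bool.or_comm _ _

theorem ad0_irrefl (φ : Φ) (a : ℕ × ℕ) : ad0 φ a a = false := by
  rw [← Bool.not_eq_true]
  simp only [ad0, Bool.or_eq_true, Bool.and_eq_true, decide_eq_true_eq]
  rintro (h | h | h | h | h | h | h | h) <;> omega

theorem ad_irrefl (φ : Φ) (a : ℕ × ℕ) : ad φ a a = false := by
  unfold ad
  rw [ad0_irrefl, Bool.or_false]

/-- the list of the labels -/
def vs (φ : Φ) : List (ℕ × ℕ) :=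
  (List.range φ.length).map (fun q => (5, q)) ++
    [0, 1, 2, 3, 4].flatMap (fun i => (List.range (φ.length * 3)).map (fun o => (i, o)))

/-- the graph of the formula -/
def gr (φ : Φ) : SimpleGraph (Fin (vs φ).length) :=
  listGraph (vs φ) (ad φ) (ad_symm φ) (ad_irrefl φ)

/-- the labelling of the vertices -/
def lab (m : ℕ) : Fin m ⊕ (Fin (m * 3) × Fin 5) → ℕ × ℕ
  | Sum.inl q => (5, q)
  | Sum.inr (o, i) => (i, o)

theorem lab_inj (m : ℕ) : Function.Injective (lab m) := by
  rintro (q | ⟨o, i⟩) (q' | ⟨o', i'⟩) h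
  · simp only [lab, Prod.mk.injEq, true_and] at h
    rw [Fin.ext h]
  · simp only [lab, Prod.mk.injEq] at h
    have := i'.isLt
    omega
  · simp only [lab, Prod.mk.injEq] at h
    have := i.isLt
    omega
  · simp only [lab, Prod.mk.injEq] at h
    rw [Fin.ext h.1, Fin.ext h.2]

theorem mem_vs (φ : Φ) (z : ℕ × ℕ) : z ∈ vs φ ↔ ∃ x, lab φ.length x = z := by
  simp only [vs, List.mem_append, List.mem_map, List.mem_range, List.mem_flatMap, List.mem_cons,
    List.not_mem_nil, or_false]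
  constructor
  · rintro (⟨q, hq, rfl⟩ | ⟨i, hi, o, ho, rfl⟩)
    · exact ⟨Sum.inl ⟨q, hq⟩, rfl⟩
    · refine ⟨Sum.inr (⟨o, ho⟩, ⟨i, by omega⟩), rfl⟩
  · rintro ⟨q | ⟨o, i⟩, rfl⟩
    · exact Or.inl ⟨q, q.isLt, rfl⟩
    · refine Or.inr ⟨i, ?_, o, o.isLt, rfl⟩
      have := i.isLt
      omega

theorem nodup_vs (φ : Φ) : (vs φ).Nodup := by
  unfold vs
  rw [List.nodup_append']
  refine ⟨?_, ?_, ?_⟩
  · exact List.Nodup.map (fun a b h => (Prod.mk.injEq _ _ _ _ ▸ h).2) List.nodup_range
  · rw [List.nodup_flatMap]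
    refine ⟨fun i _ => List.Nodup.map (fun a b h => (Prod.mk.injEq _ _ _ _ ▸ h).2)
      List.nodup_range, ?_⟩
    have h1 : List.Nodup [0, 1, 2, 3, 4] := by decide
    refine List.Pairwise.imp ?_ h1
    intro a b hab z hz hz'
    rw [List.mem_map] at hz hz'
    obtain ⟨x, _, rfl⟩ := hz
    obtain ⟨y, _, hy⟩ := hz'
    simp only [Prod.mk.injEq] at hy
    exact hab hy.1.symm
  · intro z hz hz'
    rw [List.mem_map] at hz
    rw [List.mem_flatMap] at hz'
    obtain ⟨q, _, rfl⟩ := hz
    obtain ⟨i, hi, hz'⟩ := hz'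
    rw [List.mem_map] at hz'
    obtain ⟨o, _, ho⟩ := hz'
    simp only [Prod.mk.injEq] at ho
    simp only [List.mem_cons, List.not_mem_nil, or_false] at hi
    omega

/-- the position of the occurrences -/
def pos (m : ℕ) : Fin m × Fin 3 ≃ Fin (m * 3) := finProdFinEquiv

theorem pos_val (m : ℕ) (q : Fin m) (k : Fin 3) : ((pos m (q, k) : Fin (m * 3)) : ℕ) = k + 3 * q :=
  rfl

theorem pos_symm_fst (m : ℕ) (o : Fin (m * 3)) : (((pos m).symm o).1 : ℕ) = o / 3 := rfl

/-- the abstract cubic graph of the formula -/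
noncomputable def dD (φ : Φ) : Darts (Fin φ.length ⊕ (Fin (φ.length * 3) × Fin 5)) :=
  gD (pos φ.length) (perm (φ.length * 3) (var φ))

theorem rev_eq (φ : Φ) (d) : (dD φ).rev d = grev (pos φ.length) (perm (φ.length * 3) (var φ)) d :=
  rfl

theorem ad_of_dart (φ : Φ) (v) (k : Fin 3) :
    ad φ (lab _ v) (lab _ ((dD φ).rev (v, k)).1) = true := by
  rw [rev_eq]
  obtain q | ⟨o, i⟩ := v
  · have h1 : ((k : ℕ) + 3 * (q : ℕ)) / 3 = q := by omega
    simp [ad, ad0, grev, lab, pos_val, h1]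
  · revert k; revert i
    have h2 : nxt φ (((perm (φ.length * 3) (var φ)).symm o : Fin _) : ℕ) = o := by
      have := perm_val (φ.length * 3) (var φ) ((perm (φ.length * 3) (var φ)).symm o)
      rw [Equiv.apply_symm_apply] at this
      exact this.symm
    have h3 : ((perm (φ.length * 3) (var φ) o : Fin _) : ℕ) = nxt φ o := rfl
    refine fin5_cases ?_ ?_ ?_ ?_ ?_ <;> refine fin3_cases ?_ ?_ ?_ <;>
      simp [ad, ad0, grev, lab, pos_symm_fst, h2, h3]

theorem adj_of_ad0 (φ : Φ) (u v) (h : ad0 φ (lab _ u) (lab _ v) = true) :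
    (dD φ).graph.Adj u v := by
  simp only [ad0, Bool.or_eq_true, Bool.and_eq_true, decide_eq_true_eq] at h
  rw [Darts.adj]
  obtain q | ⟨o, i⟩ := u
  · obtain q' | ⟨o', i'⟩ := v
    · simp [lab] at h
    · have hi := i'.isLt
      simp only [lab] at h
      obtain ⟨h1, h2⟩ : (i' : ℕ) = 0 ∧ (o' : ℕ) / 3 = q := by
        rcases h with h | h | h | h | h | h | h | h
        · exact h.2
        all_goals omega
      refine ⟨((pos φ.length).symm o').2, ?_⟩
      have h3 : ((pos φ.length).symm o').1 = q := Fin.ext h2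
      have h4 : pos φ.length (q, ((pos φ.length).symm o').2) = o' := by
        rw [← h3, Prod.mk.eta, Equiv.apply_symm_apply]
      have h5 : i' = 0 := Fin.ext h1
      rw [rev_eq]
      simp only [grev]
      rw [h4, h5]
  · obtain q' | ⟨o', i'⟩ := v
    · simp only [lab] at h
      have hi := i.isLt
      rcases h with h | h | h | h | h | h | h | h
      all_goals omega
    · simp only [lab] at h
      have hi := i.isLt
      have key : ∀ (j j' : Fin 5) (k : Fin 3),
          (i : ℕ) = j → (i' : ℕ) = j' → (o : ℕ) = o' →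
          (grev (pos φ.length) (perm (φ.length * 3) (var φ)) (Sum.inr (o, j), k)).1 =
            Sum.inr (o, j') → ∃ k, ((dD φ).rev (Sum.inr (o, i), k)).1 = Sum.inr (o', i') := by
        intro j j' k h1 h2 h3 h4
        have e1 : i = j := Fin.ext h1
        have e2 : i' = j' := Fin.ext h2
        have e3 : o = o' := Fin.ext h3
        subst e1 e2 e3
        exact ⟨k, h4⟩
      rcases h with h | h | h | h | h | h | h | h
      · omega
      · exact key 0 1 0 h.1 h.2.1 h.2.2 rfl
      · exact key 1 2 1 h.1 h.2.1 h.2.2 rfl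
      · exact key 1 3 2 h.1 h.2.1 h.2.2 rfl
      · exact key 2 3 1 h.1 h.2.1 h.2.2 rfl
      · exact key 2 4 2 h.1 h.2.1 h.2.2 rfl
      · exact key 3 4 2 h.1 h.2.1 h.2.2 rfl
      · have e1 : i = 4 := Fin.ext h.1
        have e2 : i' = 0 := Fin.ext h.2.1
        have e3 : perm (φ.length * 3) (var φ) o = o' := Fin.ext h.2.2
        subst e1 e2 e3
        exact ⟨2, rfl⟩

theorem adj_iff (φ : Φ) (u v) :
    ad φ (lab _ u) (lab _ v) = true ↔ (dD φ).graph.Adj u v := by
  constructor
  · intro h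
    rw [ad, Bool.or_eq_true] at h
    rcases h with h | h
    · exact adj_of_ad0 φ u v h
    · exact (adj_of_ad0 φ v u h).symm
  · rintro ⟨k, rfl⟩
    exact ad_of_dart φ u k

theorem exists_iso (φ : Φ) : ∃ e : Fin (vs φ).length ≃ (Fin φ.length ⊕ (Fin (φ.length * 3) × Fin 5)),
    ∀ i j, (gr φ).Adj i j ↔ (dD φ).graph.Adj (e i) (e j) := by
  obtain ⟨e, he⟩ := exists_equiv (vs φ) (nodup_vs φ) (lab φ.length) (lab_inj _) (mem_vs φ)
  refine ⟨e, fun i j => ?_⟩
  rw [← adj_iff, he, he]
  rfl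

theorem gr_cubic (φ : Φ) : Cubic (gr φ) := by
  obtain ⟨e, he⟩ := exists_iso φ
  exact cubic_iso e he (dD φ).cubic

theorem getD_length (φ : Φ) (q : Fin φ.length) (d) : φ.getD q d = φ[q] := by
  rw [List.getD_eq_getElem?_getD, List.getElem?_eq_getElem q.isLt]
  rfl

theorem var_pos (φ : Φ) (q : Fin φ.length) :
    var φ (pos φ.length (q, 0) : Fin _) = (φ[q]).1 ∧
    var φ (pos φ.length (q, 1) : Fin _) = (φ[q]).2.1 ∧
    var φ (pos φ.length (q, 2) : Fin _) = (φ[q]).2.2 := by
  have e0 : ((pos φ.length (q, 0) : Fin _) : ℕ) = 3 * q := by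
    rw [pos_val]; simp
  have e1 : ((pos φ.length (q, 1) : Fin _) : ℕ) = 1 + 3 * q := by
    rw [pos_val]; simp
  have e2 : ((pos φ.length (q, 2) : Fin _) : ℕ) = 2 + 3 * q := by
    rw [pos_val]; simp
  have d0 : (3 * (q : ℕ)) / 3 = q := by omega
  have d1 : (1 + 3 * (q : ℕ)) / 3 = q := by omega
  have d2 : (2 + 3 * (q : ℕ)) / 3 = q := by omega
  have m0 : (3 * (q : ℕ)) % 3 = 0 := by omega
  have m1 : (1 + 3 * (q : ℕ)) % 3 = 1 := by omega
  have m2 : (2 + 3 * (q : ℕ)) % 3 = 2 := by omega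
  refine ⟨?_, ?_, ?_⟩
  · rw [e0, var, m0, d0, getD_length]; rfl
  · rw [e1, var, m1, d1, getD_length]; rfl
  · rw [e2, var, m2, d2, getD_length]; rfl

theorem gr_correct (φ : Φ) : NAE φ ↔ KWeightColourable (gr φ) 2 := by
  obtain ⟨e, he⟩ := exists_iso φ
  have h1 : KWeightColourable (gr φ) 2 ↔ KWeightColourable (dD φ).graph 2 := by
    constructor
    · intro h
      refine kwc_iso e.symm (fun u v => ?_) 2 h
      rw [he]
      simp
    · intro h
      exact kwc_iso e he 2 h
  rw [h1, dD, gadget_correct]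
  constructor
  · rintro ⟨τ, hτ⟩
    refine ⟨fun o => τ (var φ o), fun o => ?_, fun q => ?_⟩
    · change τ (var φ _) = τ (var φ _)
      rw [perm_val, nxtf_class (f := var φ) o.isLt]
    · obtain ⟨v0, v1, v2⟩ := var_pos φ q
      change ¬ (τ (var φ _) = τ (var φ _) ∧ τ (var φ _) = τ (var φ _))
      rw [v0, v1, v2]
      exact hτ _ (List.getElem_mem q.isLt)
  · rintro ⟨y, hy, hq⟩
    have hc := perm_const hy
    classical
    let τ : NV → Bool := fun v => if h : ∃ o : Fin (φ.length * 3), var φ o = v then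
      y h.choose else false
    have hτ : ∀ o : Fin (φ.length * 3), τ (var φ o) = y o := by
      intro o
      have h : ∃ o' : Fin (φ.length * 3), var φ o' = var φ o := ⟨o, rfl⟩
      simp only [τ, dif_pos h]
      exact hc _ _ h.choose_spec
    refine ⟨τ, fun t ht => ?_⟩
    obtain ⟨q, hq', rfl⟩ := List.getElem_of_mem ht
    obtain ⟨v0, v1, v2⟩ := var_pos φ ⟨q, hq'⟩
    have h2 := hq ⟨q, hq'⟩
    rw [← hτ, ← hτ, ← hτ, v0, v1, v2] at h2
    exact h2

theorem var_poly {α : Type} [TEnc α] {f : α → Φ} {o : α → ℕ} (h : Poly f) (h' : Poly o) :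
    Poly (fun x => var (f x) (o x)) := by
  unfold var
  have h1 : Poly (fun x => o x % 3) := NPC.Poly.mod h' (NPC.Poly.const 3)
  have h2 : Poly (fun x => o x / 3) := NPC.Poly.div h' (NPC.Poly.const 3)
  have h3 : Poly (fun x => (f x).getD (o x / 3) ((0, 0, false), (0, 0, false), (0, 0, false))) :=
    NPC.Poly.getD h h2 (NPC.Poly.const _)
  fun_prop

attribute [local fun_prop] var_poly

theorem nxt_poly {α : Type} [TEnc α] {f : α → Φ} {o : α → ℕ} (h : Poly f) (h' : Poly o) :
    Poly (fun x => nxt (f x) (o x)) := by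
  unfold nxt nxtf
  have u : UPoly (fun x => (f x).length * 3) := UPoly.mul (UPoly.length h) (UPoly.const 3)
  have h1 : Poly (fun x => (List.range ((f x).length * 3)).filter
      (fun j => decide (o x < j) && decide (var (f x) j = var (f x) (o x)))) :=
    NPC.Poly.filter (l := fun x => List.range ((f x).length * 3))
      (p := fun x j => decide (o x < j) && decide (var (f x) j = var (f x) (o x))) u.range
      (by fun_prop)
  have h2 : Poly (fun x => (List.range ((f x).length * 3)).filter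
      (fun j => decide (var (f x) j = var (f x) (o x)))) :=
    NPC.Poly.filter (l := fun x => List.range ((f x).length * 3))
      (p := fun x j => decide (var (f x) j = var (f x) (o x))) u.range
      (by fun_prop)
  exact NPC.Poly.optGetD (NPC.Poly.head? h1) (NPC.Poly.optGetD (NPC.Poly.head? h2)
    (NPC.Poly.const 0))

attribute [local fun_prop] nxt_poly

theorem ad0_poly {α : Type} [TEnc α] {f : α → Φ} {a b : α → ℕ × ℕ} (h : Poly f) (ha : Poly a)
    (hb : Poly b) : Poly (fun x => ad0 (f x) (a x) (b x)) := by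
  unfold ad0
  have h1 : Poly (fun x => (b x).2 / 3) := NPC.Poly.div (NPC.Poly.snd hb) (NPC.Poly.const 3)
  fun_prop

theorem vs_poly : Poly vs := by
  unfold vs
  have u : UPoly (fun φ : Φ => φ.length * 3) := UPoly.mul (UPoly.length NPC.Poly.id)
    (UPoly.const 3)
  have u' : UPoly (fun φ : Φ => φ.length) := UPoly.length NPC.Poly.id
  have h1 := u.range
  have h2 := u'.range
  refine NPC.Poly.append (by fun_prop) ?_
  refine NPC.Poly.flatMap (l := fun _ : Φ => [0, 1, 2, 3, 4])
    (F := fun (φ : Φ) i => (List.range (φ.length * 3)).map (fun o => (i, o))) (NPC.Poly.const _) ?_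
  exact NPC.Poly.map (l := fun x : Φ × ℕ => List.range (x.1.length * 3))
    (F := fun x o => (x.2, o)) (h1.comp (NPC.Poly.fst NPC.Poly.id)) (by fun_prop)

theorem gr_poly : Poly (fun φ : Φ => adjMatrix (gr φ)) := by
  have h1 : ∀ φ : Φ, adjMatrix (gr φ) = (vs φ).map (fun u => (vs φ).map (fun w => ad φ u w)) :=
    fun φ => adjMatrix_listGraph _ _ _ _
  have h2 : Poly (fun φ : Φ => (vs φ).map (fun u => (vs φ).map (fun w => ad φ u w))) := by
    refine NPC.Poly.map (l := vs) (F := fun φ u => (vs φ).map (fun w => ad φ u w)) vs_poly ?_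
    refine NPC.Poly.map (l := fun x : Φ × (ℕ × ℕ) => vs x.1) (F := fun x w => ad x.1 x.2 w)
      (vs_poly.comp (NPC.Poly.fst NPC.Poly.id)) ?_
    unfold ad
    exact NPC.Poly.or (ad0_poly (by fun_prop) (by fun_prop) (by fun_prop))
      (ad0_poly (by fun_prop) (by fun_prop) (by fun_prop))
  exact h2.congr fun φ => (h1 φ).symm

/-- Hardness, with cubic graphs as instances. -/
theorem hard (L : Set (List Bool)) (hL : InNP L) : ∃ f : List Bool → List Bool, PolyTime f ∧
    ∀ w, ∃ (n : ℕ) (G : SimpleGraph (Fin n)), f w = bits (adjMatrix G) ∧ Cubic G ∧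
      (w ∈ L ↔ KWeightColourable G 2) := by
  obtain ⟨g, hg, hgL⟩ := hardI_NAE L hL
  refine ⟨fun w => bits (adjMatrix (gr (g w))), PC.toPolyTime_bits gr_poly g hg, fun w => ?_⟩
  exact ⟨_, gr (g w), rfl, gr_cubic _, (hgL w).trans (gr_correct _)⟩

theorem npHard : NPHardP TwoWC := by
  intro L hL
  obtain ⟨f, hf, h⟩ := hard L hL
  refine ⟨f, hf, fun w => ?_⟩
  obtain ⟨n, G, h1, _, h2⟩ := h w
  rw [h1, bits_mem_lang, h2]
  constructor
  · intro h3
    exact ⟨n, G, rfl, h3⟩
  · rintro ⟨n', G', h3, h4⟩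
    have h5 : n' = n := by
      have := congrArg List.length h3
      simpa [adjMatrix] using this
    subst h5
    rw [← adjMatrix_inj h3]
    exact h4

end Pool.Agent.NPC.WC648
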